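import Mathlib

set_option autoImplicit false

/-!
# The `k`-chain Aharoni–Korman property for vacillating posets with infinite antichains

For every `k ≥ 1` there is a countable vacillating poset which has the property `(AK_j)` exactly
for `j < k`: the disjoint union of `k - 1` chains of order type `ω` and of one chain with `N`
elements for every `N ≥ 1`.
-/

namespace Pool.Agent.Results.MP_1f8616_co.Full

/-- The chain `C` is saturated: no `x` outside `C` lies strictly between two elements of `C` such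
that `C ∪ {x}` is a chain. -/
def Saturated {P : Type} [PartialOrder P] (C : Set P) : Prop :=
  ¬ ∃ x, x ∉ C ∧ ∃ y ∈ C, ∃ z ∈ C, y < x ∧ x < z ∧ IsChain (· ≤ ·) (insert x C)

/-- A poset without infinite strictly increasing sequence. -/
def CoWellfounded (Q : Type) [PartialOrder Q] : Prop := ¬ ∃ s : ℕ → Q, StrictMono s

/-- `Q` is isomorphic to a linear sum `⨁_{i ∈ ω} C i` of infinite co-wellfounded chains. (The
linear sum of a sequence of chains is the lexicographic sum `Σₗ i, C i`.) -/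
def IsForbiddenSum (Q : Type) [PartialOrder Q] : Prop :=
  ∃ (C : ℕ → Type) (_ : ∀ i, LinearOrder (C i)),
    (∀ i, Infinite (C i) ∧ CoWellfounded (C i)) ∧ Nonempty (Q ≃o Σₗ i, C i)

/-- `P` is vacillating: for no saturated chain `C` is `C` or its reverse a forbidden sum. -/
def Vacillating (P : Type) [PartialOrder P] : Prop :=
  ∀ C : Set P, IsChain (· ≤ ·) C → Saturated C →
    ¬ IsForbiddenSum C ∧ ¬ IsForbiddenSum (↥C)ᵒᵈ

/-- The property `(AK_k)`. -/
def AK (P : Type) [PartialOrder P] (k : ℕ) : Prop :=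
  ∃ C : Fin k → Set P, (∀ j, IsChain (· ≤ ·) (C j)) ∧
    Pairwise (fun i j => Disjoint (C i) (C j)) ∧
    ∃ 𝒜 : Set (Set P), Setoid.IsPartition 𝒜 ∧ (∀ A ∈ 𝒜, IsAntichain (· ≤ ·) A) ∧
      ∀ A ∈ 𝒜, min A.encard (k : ℕ∞) ≤ {j : Fin k | (A ∩ C j).Nonempty}.encard

/-- The disjoint union of `m` chains of order type `ω` (first coordinate `inl i`) and of a chain
with `N + 1` elements for every `N` (first coordinate `inr N`). -/
def Ex (m : ℕ) : Type := {x : (Fin m ⊕ ℕ) × ℕ // ∀ N, x.1 = Sum.inr N → x.2 ≤ N}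

instance (m : ℕ) : PartialOrder (Ex m) where
  le x y := x.1.1 = y.1.1 ∧ x.1.2 ≤ y.1.2
  le_refl x := ⟨rfl, le_rfl⟩
  le_trans x y z h1 h2 := ⟨h1.1.trans h2.1, h1.2.trans h2.2⟩
  le_antisymm x y h1 h2 := Subtype.ext (Prod.ext h1.1 (le_antisymm h1.2 h2.2))

instance (m : ℕ) : Countable (Ex m) := by
  unfold Ex
  infer_instance

variable {m : ℕ}

lemma ex_le (x y : Ex m) : x ≤ y ↔ x.1.1 = y.1.1 ∧ x.1.2 ≤ y.1.2 := Iff.rfl

lemma ex_ext {x y : Ex m} (h1 : x.1.1 = y.1.1) (h2 : x.1.2 = y.1.2) : x = y :=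
  Subtype.ext (Prod.ext h1 h2)

lemma ex_lt {x y : Ex m} (h : x < y) : x.1.2 < y.1.2 := by
  refine lt_of_le_of_ne h.le.2 fun h2 => h.ne (ex_ext h.le.1 h2)

/-- The elements of a chain have the same first coordinate. -/
lemma chain_fst {C : Set (Ex m)} (hC : IsChain (· ≤ ·) C) {x y : Ex m} (hx : x ∈ C)
    (hy : y ∈ C) : x.1.1 = y.1.1 := by
  by_cases hxy : x = y
  · rw [hxy]
  · rcases hC hx hy hxy with h | h
    · exact h.1
    · exact h.1.symm

/-- Two elements of the same chain component which lie in one antichain are equal. -/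
lemma anti_eq {A : Set (Ex m)} (hA : IsAntichain (· ≤ ·) A) {x y : Ex m} (hx : x ∈ A)
    (hy : y ∈ A) (h : x.1.1 = y.1.1) : x = y := by
  by_contra hne
  rcases le_total x.1.2 y.1.2 with h2 | h2
  · exact hA hx hy hne ⟨h, h2⟩
  · exact hA hy hx (Ne.symm hne) ⟨h.symm, h2⟩

lemma not_sum (C : Set (Ex m)) : ¬ IsForbiddenSum C := by
  rintro ⟨D, _, hD, ⟨e⟩⟩
  obtain ⟨hinf, hco⟩ := hD 0
  -- a strictly monotone map from `D 0` to `ℕ`
  let h : D 0 → ℕ := fun d => (e.symm (toLex ⟨0, d⟩)).1.1.2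
  have hh : StrictMono h := by
    intro a b hab
    have h1 : (toLex (⟨0, a⟩ : Σ i, D i) : Σₗ i, D i) < toLex ⟨0, b⟩ := by
      rw [Sigma.Lex.lt_def]
      exact Or.inr ⟨rfl, hab⟩
    have h2 := e.symm.strictMono h1
    exact ex_lt h2
  apply hco
  have hr : (Set.range h).Infinite := Set.infinite_range_of_injective hh.injective
  have hs : ∀ n : ℕ, ∃ d : D 0, h d = (Nat.nth (· ∈ Set.range h) n) := by
    intro n
    exact Nat.nth_mem_of_infinite (p := (· ∈ Set.range h)) hr n
  choose s hs using hs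
  refine ⟨s, fun a b hab => ?_⟩
  rw [← hh.lt_iff_lt, hs, hs]
  exact Nat.nth_strictMono (p := (· ∈ Set.range h)) hr hab

lemma not_sum_dual (C : Set (Ex m)) : ¬ IsForbiddenSum (↥C)ᵒᵈ := by
  rintro ⟨D, _, hD, ⟨e⟩⟩
  have : ∀ i, Nonempty (D i) := fun i => by
    have := (hD i).1
    infer_instance
  let d : ∀ i, D i := fun i => Classical.arbitrary (D i)
  let h : ℕ → ℕ := fun i => (OrderDual.ofDual (e.symm (toLex ⟨i, d i⟩))).1.1.2
  have hh : StrictAnti h := by
    intro i j hij
    have h1 : (toLex (⟨i, d i⟩ : Σ i, D i) : Σₗ i, D i) < toLex ⟨j, d j⟩ := by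
      rw [Sigma.Lex.lt_def]
      exact Or.inl hij
    have h2 := e.symm.strictMono h1
    exact ex_lt (OrderDual.ofDual_lt_ofDual.2 h2)
  exact not_strictAnti_of_wellFoundedLT h hh

theorem vacillating (m : ℕ) : Vacillating (Ex m) :=
  fun C _ _ => ⟨not_sum C, not_sum_dual C⟩

theorem ak_of_le {j : ℕ} (hj : j ≤ m) : AK (Ex m) j := by
  refine ⟨fun a => {x | x.1.1 = Sum.inl (Fin.castLE hj a)}, ?_, ?_,
    {A | ∃ n : ℕ, A = {x : Ex m | x.1.2 = n}}, ⟨?_, ?_⟩, ?_, ?_⟩
  · intro a x hx y hy _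
    have hx' : x.1.1 = Sum.inl (Fin.castLE hj a) := hx
    have hy' : y.1.1 = Sum.inl (Fin.castLE hj a) := hy
    rcases le_total x.1.2 y.1.2 with h | h
    · exact Or.inl ⟨hx'.trans hy'.symm, h⟩
    · exact Or.inr ⟨hy'.trans hx'.symm, h⟩
  · intro a b hab
    rw [Set.disjoint_left]
    intro x hx hy
    have hx' : x.1.1 = Sum.inl (Fin.castLE hj a) := hx
    have hy' : x.1.1 = Sum.inl (Fin.castLE hj b) := hy
    rw [hx'] at hy'
    exact hab (Fin.castLE_injective hj (Sum.inl_injective hy'))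
  · rintro ⟨n, hn⟩
    have : (⟨(Sum.inr n, n), fun N h => (Sum.inr_injective h).le⟩ : Ex m) ∈ (∅ : Set (Ex m)) := by
      rw [hn]
      rfl
    exact this
  · intro x
    refine ⟨{y | y.1.2 = x.1.2}, ⟨⟨x.1.2, rfl⟩, rfl⟩, ?_⟩
    rintro A ⟨⟨n, rfl⟩, hx⟩
    have hx' : x.1.2 = n := hx
    rw [hx']
  · rintro A ⟨n, rfl⟩ x hx y hy hne hle
    have hx' : x.1.2 = n := hx
    have hy' : y.1.2 = n := hy
    exact hne (ex_ext hle.1 (hx'.trans hy'.symm))
  · rintro A ⟨n, rfl⟩
    refine (min_le_right _ _).trans ?_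
    have : {a : Fin j | ({x : Ex m | x.1.2 = n} ∩
        {x | x.1.1 = Sum.inl (Fin.castLE hj a)}).Nonempty} = Set.univ := by
      ext a
      simp only [Set.mem_ofPred_eq, Set.mem_univ, iff_true]
      exact ⟨⟨(Sum.inl (Fin.castLE hj a), n), fun N h => by simp at h⟩, rfl, rfl⟩
    rw [this, Set.encard_univ]
    simp

theorem not_ak {j : ℕ} (hj : m < j) : ¬ AK (Ex m) j := by
  classical
  rintro ⟨C, hC, hdisj, 𝒜, hpart, hanti, hmin⟩
  -- the components of the chains
  have hcomp : ∀ a : Fin j, ∃ i : Fin m ⊕ ℕ, ∀ x ∈ C a, x.1.1 = i := by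
    intro a
    rcases (C a).eq_empty_or_nonempty with h | ⟨c, hc⟩
    · exact ⟨Sum.inr 0, fun x hx => by rw [h] at hx; exact absurd hx (Set.notMem_empty x)⟩
    · exact ⟨c.1.1, fun x hx => chain_fst (hC a) hx hc⟩
  choose i hi using hcomp
  -- a long finite chain
  obtain ⟨N, hN⟩ : ∃ N : ℕ, ∀ a M, i a = Sum.inr M → M < N := by
    refine ⟨(∑ a, Sum.elim (fun _ => 0) id (i a)) + 1, fun a M h => ?_⟩
    have h1 := Finset.single_le_sum (f := fun a => Sum.elim (fun _ => 0) id (i a))
      (fun _ _ => Nat.zero_le _) (Finset.mem_univ a)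
    simp only [h, Sum.elim_inr, id] at h1
    omega
  let x : Fin (N + 1) → Ex m := fun t =>
    ⟨(Sum.inr N, t), fun M h => by rw [← Sum.inr_injective h]; exact Nat.lt_succ_iff.1 t.2⟩
  have hxC : ∀ t a, x t ∉ C a := by
    intro t a h
    have h1 : Sum.inr N = i a := hi a (x t) h
    exact lt_irrefl N (hN a N h1.symm)
  -- the parts
  have hA : ∀ y : Ex m, ∃ A ∈ 𝒜, y ∈ A := by
    intro y
    obtain ⟨A, ⟨h1, h2⟩, -⟩ := hpart.2 y
    exact ⟨A, h1, h2⟩
  choose A hA𝒜 hAmem using hA
  have huniq : ∀ y B, B ∈ 𝒜 → y ∈ B → B = A y := by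
    intro y B hB hy
    obtain ⟨D, -, hD⟩ := hpart.2 y
    rw [hD B ⟨hB, hy⟩, hD (A y) ⟨hA𝒜 y, hAmem y⟩]
  have hmeet : ∀ t a, (A (x t) ∩ C a).Nonempty := by
    intro t
    by_contra hcon
    push Not at hcon
    obtain ⟨a₀, ha₀⟩ := hcon
    set S : Set (Fin j) := {a | (A (x t) ∩ C a).Nonempty} with hS
    have hSfin : S.Finite := Set.toFinite S
    have hSlt : S.encard < (j : ℕ∞) := by
      have h1 : S ⊂ Set.univ := by
        rw [Set.ssubset_univ_iff]
        intro h
        have : a₀ ∈ S := by rw [h]; trivial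
        rw [hS, Set.mem_ofPred_eq, ha₀] at this
        exact Set.not_nonempty_empty this
      have h2 := hSfin.encard_lt_encard h1
      rwa [Set.encard_univ, ENat.card_eq_coe_fintype_card, Fintype.card_fin] at h2
    have h1 := hmin (A (x t)) (hA𝒜 (x t))
    have h2 : (A (x t)).encard ≤ S.encard := by
      rcases min_le_iff.1 h1 with h | h
      · exact h
      · exact absurd h (not_le.2 hSlt)
    have h3 : ∀ a : S, ∃ y, y ∈ A (x t) ∧ y ∈ C a := fun a => a.2
    choose y hyA hyC using h3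
    have hyinj : Function.Injective y := by
      intro a b hab
      by_contra hne
      have := hdisj (fun h => hne (Subtype.ext h) : (a : Fin j) ≠ b)
      exact Set.disjoint_left.1 this (hyC a) (hab ▸ hyC b)
    have h4 : insert (x t) (Set.range y) ⊆ A (x t) := by
      rw [Set.insert_subset_iff]
      exact ⟨hAmem (x t), Set.range_subset_iff.2 hyA⟩
    have h5 : x t ∉ Set.range y := by
      rintro ⟨a, ha⟩
      exact hxC t a (ha ▸ hyC a)
    have h6 := Set.encard_le_encard h4
    rw [Set.encard_insert_of_notMem h5] at h6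
    have h7 : (Set.range y).encard = S.encard := by
      rw [← Set.image_univ, hyinj.encard_image, Set.encard_univ]
      rfl
    rw [h7] at h6
    have h8 := h6.trans h2
    have h9 : S.encard < S.encard + 1 := by
      rw [hSfin.encard_eq_coe_toFinset_card]
      exact_mod_cast Nat.lt_succ_self _
    exact absurd h8 (not_le.2 h9)
  choose y hyA hyC using fun t a => hmeet t a
  by_cases hcase : ∃ a M, i a = Sum.inr M
  · obtain ⟨a, M, hM⟩ := hcase
    have hMN := hN a M hM
    -- heights of the points of the chain `C a`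
    have hle : ∀ t, (y t a).1.2 < M + 1 := by
      intro t
      have := (y t a).2 M ((hi a _ (hyC t a)).trans hM)
      omega
    have hinj : Function.Injective (fun t : Fin (N + 1) => (⟨(y t a).1.2, hle t⟩ : Fin (M + 1))) := by
      intro t t' h
      have h1 : (y t a).1.2 = (y t' a).1.2 := congrArg Fin.val h
      have h2 : y t a = y t' a :=
        ex_ext ((hi a _ (hyC t a)).trans (hi a _ (hyC t' a)).symm) h1
      have h3 : A (x t) = A (x t') := by
        rw [huniq (y t a) _ (hA𝒜 _) (hyA t a), huniq (y t a) (A (x t')) (hA𝒜 _)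
          (h2 ▸ hyA t' a)]
      have h4 : x t = x t' :=
        anti_eq (hanti _ (hA𝒜 (x t))) (hAmem (x t)) (h3 ▸ hAmem (x t')) rfl
      have h5 : (x t).1.2 = (x t').1.2 := by rw [h4]
      exact Fin.ext h5
    have := Fintype.card_le_of_injective _ hinj
    simp only [Fintype.card_fin] at this
    omega
  · push Not at hcase
    have h1 : ∀ a, ∃ b : Fin m, i a = Sum.inl b := by
      intro a
      rcases h : i a with b | M
      · exact ⟨b, rfl⟩
      · exact absurd h (hcase a M)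
    choose b hb using h1
    obtain ⟨a, a', hne, hab⟩ := Fintype.exists_ne_map_eq_of_card_lt b (by simpa using hj)
    have h2 : i a = i a' := by rw [hb, hb, hab]
    have h3 : y 0 a = y 0 a' :=
      anti_eq (hanti _ (hA𝒜 (x 0))) (hyA 0 a) (hyA 0 a')
        ((hi a _ (hyC 0 a)).trans (h2.trans (hi a' _ (hyC 0 a')).symm))
    exact Set.disjoint_left.1 (hdisj hne) (hyC 0 a) (h3 ▸ hyC 0 a')

/-- For every `k ≥ 1` there is a countable vacillating poset which has `(AK_j)` exactly for
`j < k`. -/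
theorem result (k : ℕ) (hk : 1 ≤ k) :
    ∃ (P : Type) (_ : PartialOrder P), Countable P ∧ Vacillating P ∧ ∀ j : ℕ, AK P j ↔ j < k := by
  refine ⟨Ex (k - 1), inferInstance, inferInstance, vacillating _, fun j => ⟨fun h => ?_,
    fun h => ak_of_le (by omega)⟩⟩
  by_contra hcon
  exact not_ak (by omega) h

end Pool.Agent.Results.MP_1f8616_co.Full
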